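import Mathlib
import Pool.Agent.Q172.Radial
import Pool.Agent.Q172.HopfA
import Pool.Agent.Q172.HopfB
import Pool.Agent.Q172.HopfC
import Pool.Agent.Q172.HopfD

open MeasureTheory Set Metric
open scoped ENNReal
open Pool.Agent.Q172.Hopf

namespace Pool.Agent.Results.MP_c848f8_an.HopfSlices

/-- Let `k ≥ 1`, `n = (m+1) + k` and `0 < r < 1`.  `X` is the Hopf manifold
`(ℂ^{k+1} \ 0) / (x ~ 2x)` with the Hermitian metric `|dx|²/|x|²`, and a nowhere zero holomorphic
`x : Δⁿ → ℂ^{k+1}` gives the holomorphic map `f = [x] : Δⁿ → X`.  `graphVol x U` is the volume of the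
part over `U` of the graph of `f`, and `sliceVol x z V` the volume of the part over `V` of the graph
of the restriction of `f` to `{z} × Δᵏ`.

There are constants `a`, `R` and holomorphic maps `f` with graph volume at most `R` over the shell,
slice graph volumes at most `R` over the shells `{z} × Aᵏ(r,1)`, and graph volume at most `a` over
`Δⁿ`, for which the volume of the graph of some slice is arbitrarily large. -/
theorem result (m k : ℕ) (hk : 1 ≤ k) (r : ℝ) (hr0 : 0 < r) (_hr1 : r < 1) :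
    ∃ a R : ℝ, ∀ K : ℝ, ∃ x : Dom (m+1) k → (Fin (k+1) → ℂ),
      DifferentiableOn ℂ x (ball 0 1) ∧ (∀ p ∈ ball 0 1, x p ≠ 0) ∧
      graphVol x (ball 0 1 \ closedBall 0 r) ≤ ENNReal.ofReal R ∧
      (∀ z ∈ ball 0 1, sliceVol x z (ball 0 1 \ closedBall 0 r) ≤ ENNReal.ofReal R) ∧
      graphVol x (ball 0 1) ≤ ENNReal.ofReal a ∧
      ∃ z ∈ ball 0 1, ENNReal.ofReal K ≤ sliceVol x z (ball 0 1) := by
  set a : ℝ := Real.pi ^ m * ((k + 2) ^ k * (k * Real.pi ^ k)) * (54 * Real.pi) with ha
  set b : ℝ := (1 + 1 / r ^ 2) ^ k * Real.pi ^ k with hb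
  have ha0 : 0 ≤ a := by positivity
  have hb0 : 0 ≤ b := by positivity
  refine ⟨a, a + b, fun K => ?_⟩
  set c : ℝ := k * Real.pi ^ k / (k + 1) ^ k with hc
  have hkp : (0:ℝ) < k := by exact_mod_cast hk
  have hc0 : 0 < c := by positivity
  set T : ℝ := max 1 (K / c) with hTdef
  have hT : 1 ≤ T := le_max_left _ _
  have hK : K ≤ c * T := by
    have : K / c ≤ T := le_max_right _ _
    rw [div_le_iff₀ hc0] at this
    linarith
  have htot := total_le (m := m) (k := k) hk hT
  refine ⟨ex m k (eta T), ?_, ?_, ?_, ?_, htot, ?_⟩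
  · intro p hp
    have hp0 : ‖p.1 0‖ < 1 := by
      rw [mem_ball_zero_iff] at hp
      exact (norm_le_pi_norm p.1 0).trans_lt ((norm_fst_le p).trans_lt hp)
    exact (ex_hasFDerivAt (eta T) p _ (eta_deriv hT _ hp0)).differentiableAt.differentiableWithinAt
  · intro p _ h
    have h0 : eta T (p.1 0) = 0 := congrFun h 0
    exact Complex.exp_ne_zero _ h0
  · exact (lintegral_mono_set sdiff_subset).trans (htot.trans (ENNReal.ofReal_le_ofReal (by linarith)))
  · intro z hz
    exact (slice_annulus hT r hr0 z (by simpa using hz)).trans (ENNReal.ofReal_le_ofReal (by linarith))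
  · obtain ⟨z, hz, hz2⟩ := slice_ge (m := m) hk hT
    exact ⟨z, hz, (ENNReal.ofReal_le_ofReal hK).trans hz2⟩

end Pool.Agent.Results.MP_c848f8_an.HopfSlices
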